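import Pool.Agent.R623.G.Den

/-!
# The agreement density one half is attained below sets of Gamma-value one half

If `Γ(X) > 0`, in particular if `Γ(X) = 1/2`, then for every `Y ≤_T X` there is a computable set `A`
such that the set of arguments on which `Y` and `A` agree has density exactly `1/2`.
-/

set_option autoImplicit false

namespace Pool.Agent.Results.MP_f1effe_lc.HalfAttained

open Filter

open Classical in
/-- The characteristic function of a set of natural numbers. -/
noncomputable def char (A : Set ℕ) : ℕ →. ℕ := fun n => Part.some (if n ∈ A then 1 else 0)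

/-- `Y ≤_T X`. -/
def TLe (Y X : Set ℕ) : Prop := TuringReducible (char Y) (char X)

/-- The set of the arguments on which `Y` and `A` agree. -/
def agreement (Y A : Set ℕ) : Set ℕ := {n | n ∈ Y ↔ n ∈ A}

/-- The proportion of the elements of `S` among the numbers below `n`. -/
noncomputable def prop (S : Set ℕ) (n : ℕ) : ℝ := (S ∩ Set.Iio n).ncard / n

/-- The lower density. -/
noncomputable def lowerDensity (S : Set ℕ) : ℝ := liminf (prop S) atTop

/-- The coarse computability bound of `Y`. -/
noncomputable def gamma (Y : Set ℕ) : ℝ :=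
  sSup {r | ∃ C : Set ℕ, ComputablePred (· ∈ C) ∧ r = lowerDensity (agreement Y C)}

/-- The Gamma-value of `X`. -/
noncomputable def Gamma (X : Set ℕ) : ℝ := sInf {g | ∃ Y : Set ℕ, TLe Y X ∧ g = gamma Y}

open Pool.Agent.Results.MP_65fbb9_lc.Coincidence (orc agree ci_compC)

open Classical in
theorem agree_eq (Y A : Set ℕ) (n : ℕ) :
    (agree (fun k => decide (k ∈ Y)) (fun k => decide (k ∈ A)) n : ℝ) / n =
      prop (agreement Y A) n := by
  unfold prop agree
  congr 2
  rw [← Set.ncard_coe_finset]
  congr 1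
  ext k
  simp only [Finset.coe_filter, Finset.mem_range, Set.mem_ofPred_eq, Set.mem_inter_iff,
    Set.mem_Iio, agreement, decide_eq_decide]
  tauto

theorem prop_nonneg (S : Set ℕ) (n : ℕ) : 0 ≤ prop S n := by
  unfold prop
  positivity

theorem prop_le_one (S : Set ℕ) (n : ℕ) : prop S n ≤ 1 := by
  unfold prop
  refine div_le_one_of_le₀ ?_ (Nat.cast_nonneg n)
  have h1 : (S ∩ Set.Iio n).ncard ≤ (Set.Iio n).ncard :=
    Set.ncard_le_ncard Set.inter_subset_right (Set.finite_Iio n)
  have h2 : (Set.Iio n).ncard = n := by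
    rw [← Finset.coe_range, Set.ncard_coe_finset, Finset.card_range]
  rw [h2] at h1
  exact_mod_cast h1

theorem lowerDensity_nonneg (S : Set ℕ) : 0 ≤ lowerDensity S := by
  unfold lowerDensity
  refine le_liminf_of_le ?_ (Eventually.of_forall fun n => prop_nonneg S n)
  exact IsBoundedUnder.isCoboundedUnder_ge (isBoundedUnder_of ⟨1, fun n => prop_le_one S n⟩)

theorem lowerDensity_le_one (S : Set ℕ) : lowerDensity S ≤ 1 := by
  unfold lowerDensity
  refine liminf_le_of_le ?_ ?_
  · exact isBoundedUnder_of ⟨0, fun n => prop_nonneg S n⟩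
  · intro b hb
    obtain ⟨n, hn⟩ := hb.exists
    exact hn.trans (prop_le_one S n)

theorem cp_iff (A : Set ℕ) [DecidablePred (· ∈ A)] :
    ComputablePred (· ∈ A) ↔ Computable fun n => decide (n ∈ A) := by
  constructor
  · rintro ⟨h1, h2⟩
    refine h2.of_eq fun n => ?_
    congr
  · intro h
    exact ⟨inferInstance, h⟩

open Classical in
theorem ci_of_tle {Y X : Set ℕ} (h : TLe Y X) :
    ComputableIn {orc X} fun n => decide (n ∈ Y) := by
  have h1 : ComputableIn {orc X} fun n : ℕ => (if n ∈ Y then 1 else 0 : ℕ) := by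
    have h2 : RecursiveIn {char X} (char Y) := h
    exact h2
  have h3 : Computable fun k : ℕ => decide (k = 1) :=
    (PrimrecPred.decide (PrimrecRel.comp Primrec.eq Primrec.id (Primrec.const 1))).to_comp
  have h4 := ci_compC h3 h1
  have h5 : (fun n => decide (n ∈ Y)) = fun n => decide ((if n ∈ Y then 1 else 0 : ℕ) = 1) := by
    funext n
    by_cases hn : n ∈ Y <;> simp [hn]
  rw [h5]
  exact h4

theorem tle_of_ci {Z : ℕ → Bool} {X : Set ℕ} (h : ComputableIn {orc X} Z) :
    TLe {n | Z n = true} X := by
  classical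
  have h1 : Computable fun b : Bool => b.toNat := (Primrec.dom_bool fun b : Bool => b.toNat).to_comp
  have h2 := ci_compC h1 h
  have h3 : char {n | Z n = true} = fun n => Part.some (Z n).toNat := by
    funext n
    unfold char
    cases hz : Z n <;> simp [hz]
  show RecursiveIn {char X} (char {n | Z n = true})
  rw [h3]
  exact h2

/-- If `Γ(X) > 0` then `X` does not belong to `D(∼₀)`. -/
theorem not_dsim {X : Set ℕ} (hX : 0 < Gamma X) :
    X ∉ Pool.Agent.Results.MP_65fbb9_lc.PolynomialExponents.DSim 0 := by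
  classical
  rintro ⟨Z, hZ, hZS⟩
  have hg : Gamma X ≤ gamma {n | Z n = true} := by
    refine csInf_le ⟨0, ?_⟩ ⟨_, tle_of_ci hZ, rfl⟩
    rintro g ⟨W, _, rfl⟩
    unfold gamma
    refine Real.sSup_nonneg ?_
    rintro r ⟨C, _, rfl⟩
    exact lowerDensity_nonneg _
  have h0 : gamma {n | Z n = true} ≤ 0 := by
    unfold gamma
    refine Real.sSup_nonpos ?_
    rintro r ⟨C, hC, rfl⟩
    have h1 := hZS (fun n => decide (n ∈ C)) ((cp_iff C).1 hC)
    unfold Pool.Agent.Results.MP_65fbb9_lc.PolynomialExponents.lowerDens at h1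
    unfold lowerDensity
    refine le_of_eq_of_le ?_ h1
    congr 1
    funext n
    rw [← agree_eq]
    congr 3
    funext k
    simp
  linarith

/-- **Affirmative answer to Q1**: if `Γ(X) = 1/2`, then for every `Y ≤_T X` there is a computable
set `A` such that the lower density of the set on which `Y` and `A` agree is `1/2`.  This holds
already if `Γ(X) > 0`, and `A` can be chosen such that the set has density `1/2`. -/
theorem result :
    (∀ X : Set ℕ, Gamma X = 1 / 2 → ∀ Y : Set ℕ, TLe Y X →
      ∃ A : Set ℕ, ComputablePred (· ∈ A) ∧ lowerDensity (agreement Y A) = 1 / 2) ∧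
    (∀ X : Set ℕ, 0 < Gamma X → ∀ Y : Set ℕ, TLe Y X →
      ∃ A : Set ℕ, ComputablePred (· ∈ A) ∧
        Tendsto (prop (agreement Y A)) atTop (nhds (1 / 2))) := by
  classical
  have main : ∀ X : Set ℕ, 0 < Gamma X → ∀ Y : Set ℕ, TLe Y X →
      ∃ A : Set ℕ, ComputablePred (· ∈ A) ∧
        Tendsto (prop (agreement Y A)) atTop (nhds (1 / 2)) := by
    intro X hX Y hY
    obtain ⟨A, hA, hlim⟩ := Pool.Agent.R623.Gam.main (not_dsim hX) (ci_of_tle hY)
    have hAe : (fun k => decide (k ∈ {n | A n = true})) = A := by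
      funext k
      simp
    refine ⟨{n | A n = true}, (cp_iff _).2 (by rw [hAe]; exact hA), ?_⟩
    have h1 : prop (agreement Y {n | A n = true}) =
        fun t : ℕ => (agree (fun k => decide (k ∈ Y)) A t : ℝ) / t := by
      funext t
      rw [← agree_eq]
      congr 3
      funext k
      simp
    rw [h1]
    exact hlim
  refine ⟨fun X hX Y hY => ?_, main⟩
  obtain ⟨A, hA, hlim⟩ := main X (by rw [hX]; norm_num) Y hY
  exact ⟨A, hA, hlim.liminf_eq⟩

end Pool.Agent.Results.MP_f1effe_lc.HalfAttained
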